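import Mathlib

set_option autoImplicit false

namespace Pool.Agent.T6.Lead.Qr

open Finset

variable {n : ℕ}

/-- Number of functions for which every point of `R` shares its value with a point of `S`. -/
lemma card_shared {N : ℕ} (R S : Finset (Fin n)) (hRS : Disjoint R S) :
    (univ.filter fun f : Fin n → Fin N => ∀ b ∈ R, ∃ b' ∈ S, f b = f b').card
      ≤ S.card ^ R.card * N ^ (n - R.card) := by
  classical
  let Φ : (R → S) × ({b : Fin n // b ∉ R} → Fin N) → (Fin n → Fin N) := fun p b =>
    if hb : b ∈ R then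
      p.2 ⟨(p.1 ⟨b, hb⟩ : Fin n), fun h => (Finset.disjoint_left.mp hRS) h (p.1 ⟨b, hb⟩).2⟩
    else p.2 ⟨b, hb⟩
  have hsub : (univ.filter fun f : Fin n → Fin N => ∀ b ∈ R, ∃ b' ∈ S, f b = f b') ⊆
      (univ : Finset ((R → S) × ({b : Fin n // b ∉ R} → Fin N))).image Φ := by
    intro f hf
    simp only [mem_filter, mem_univ, true_and] at hf
    choose! g hg hfg using hf
    rw [Finset.mem_image]
    refine ⟨(fun b => ⟨g b, hg b b.2⟩, fun b => f b), mem_univ _, ?_⟩
    funext b
    by_cases hb : b ∈ R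
    · simp only [Φ, dif_pos hb]
      exact (hfg b hb).symm
    · simp only [Φ, dif_neg hb]
  refine (card_le_card hsub).trans (card_image_le.trans ?_)
  rw [card_univ, Fintype.card_prod, Fintype.card_fun, Fintype.card_fun]
  simp only [Fintype.card_coe, Fintype.card_fin]
  have : Fintype.card {b : Fin n // b ∉ R} = n - R.card := by
    rw [Fintype.card_subtype_compl, Fintype.card_fin, Fintype.card_coe]
  rw [this]

/-- Weighted count of collisions of one random function. -/
lemma sum_collisions {N Q : ℕ} (B : Finset (Fin n)) (h : B.card * Q ≤ N) :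
    ∑ f : Fin n → Fin N, Q ^ (B.card - (B.image f).card) ≤ 2 ^ B.card * N ^ n := by
  classical
  have key : ∀ f : Fin n → Fin N, Q ^ (B.card - (B.image f).card) ≤
      ∑ R ∈ B.powerset, if (∀ b ∈ R, ∃ b' ∈ B \ R, f b = f b') then Q ^ R.card else 0 := by
    intro f
    obtain ⟨T, hTB', hinj, himg⟩ := Finset.exists_subset_injOn_image_eq_of_surjOn
      (B : Set (Fin n)) (B.image f) (f := f) (by intro y hy; simpa using hy)
    have hTB : T ⊆ B := by exact_mod_cast hTB'
    have hcard : (B \ T).card = B.card - (B.image f).card := by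
      rw [card_sdiff_of_subset hTB, ← himg, card_image_of_injOn hinj]
    have hcond : ∀ b ∈ B \ T, ∃ b' ∈ B \ (B \ T), f b = f b' := by
      intro b hb
      have : f b ∈ T.image f := by
        rw [himg]; exact mem_image_of_mem _ (mem_sdiff.mp hb).1
      obtain ⟨b', hb', hfb⟩ := mem_image.mp this
      refine ⟨b', ?_, hfb.symm⟩
      rw [Finset.sdiff_sdiff_eq_self hTB]; exact hb'
    rw [← hcard]
    have hs := single_le_sum (f := fun R =>
      if (∀ b ∈ R, ∃ b' ∈ B \ R, f b = f b') then Q ^ R.card else 0)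
      (fun _ _ => Nat.zero_le _) (mem_powerset.mpr (sdiff_subset (s := B) (t := T)))
    rw [if_pos hcond] at hs
    exact hs
  refine (sum_le_sum fun f _ => key f).trans ?_
  rw [sum_comm]
  have : ∀ R ∈ B.powerset, (∑ f : Fin n → Fin N,
      if (∀ b ∈ R, ∃ b' ∈ B \ R, f b = f b') then Q ^ R.card else 0) ≤ N ^ n := by
    intro R hR
    rw [mem_powerset] at hR
    rw [← sum_filter, sum_const, smul_eq_mul]
    have h1 := card_shared (N := N) R (B \ R) disjoint_sdiff
    have hle : R.card ≤ n := by simpa using card_le_univ R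
    calc _ ≤ (B \ R).card ^ R.card * N ^ (n - R.card) * Q ^ R.card :=
          Nat.mul_le_mul_right _ h1
      _ = ((B \ R).card * Q) ^ R.card * N ^ (n - R.card) := by rw [mul_pow]; ring
      _ ≤ N ^ R.card * N ^ (n - R.card) := by
          refine Nat.mul_le_mul_right _ (Nat.pow_le_pow_left ?_ _)
          exact (Nat.mul_le_mul_right _ (card_le_card sdiff_subset)).trans h
      _ = N ^ n := by rw [← pow_add, Nat.add_sub_cancel' hle]
  refine (sum_le_sum this).trans ?_
  rw [sum_const, card_powerset, smul_eq_mul]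

/-- Markov's inequality. -/
lemma markov {Ω : Type*} [Fintype Ω] (W : Ω → ℕ) (p : Ω → Prop) [DecidablePred p] (c : ℕ)
    (h : ∀ ω, p ω → c ≤ W ω) : (univ.filter p).card * c ≤ ∑ ω, W ω := by
  calc (univ.filter p).card * c = ∑ _ω ∈ univ.filter p, c := by rw [sum_const, smul_eq_mul]
    _ ≤ ∑ ω ∈ univ.filter p, W ω := sum_le_sum fun ω hω => h ω (mem_filter.mp hω).2
    _ ≤ ∑ ω, W ω := sum_le_sum_of_subset (filter_subset _ _)

/-- Markov's inequality for the total number of collisions of independent functions. -/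
lemma card_bad {t : ℕ} {N : Fin t → ℕ} (B : Finset (Fin n)) (J : Finset (Fin t)) {Q : ℕ}
    (hQ : 1 ≤ Q) (h : ∀ j ∈ J, B.card * Q ≤ N j) (r : ℕ) :
    (univ.filter fun f : (j : Fin t) → Fin n → Fin (N j) =>
      r ≤ ∑ j ∈ J, (B.card - (B.image (f j)).card)).card * Q ^ r
      ≤ 2 ^ (B.card * J.card) * ∏ j, N j ^ n := by
  classical
  let w : (j : Fin t) → (Fin n → Fin (N j)) → ℕ := fun j g =>
    if j ∈ J then Q ^ (B.card - (B.image g).card) else 1
  have hw : ∀ f : (j : Fin t) → Fin n → Fin (N j),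
      ∏ j, w j (f j) = Q ^ ∑ j ∈ J, (B.card - (B.image (f j)).card) := by
    intro f
    rw [← prod_pow_eq_pow_sum]
    simp only [w]
    rw [prod_ite_mem, univ_inter]
  refine (markov (fun f => ∏ j, w j (f j)) _ (Q ^ r) ?_).trans ?_
  · intro f hf
    rw [hw]
    exact Nat.pow_le_pow_right hQ hf
  have h2 : ∑ f : (j : Fin t) → Fin n → Fin (N j), ∏ j, w j (f j) =
      ∏ j, ∑ g : Fin n → Fin (N j), w j g := by
    rw [Finset.prod_univ_sum, Fintype.piFinset_univ]
  rw [h2]
  have h3 : ∀ j, ∑ g : Fin n → Fin (N j), w j g ≤ (if j ∈ J then 2 ^ B.card else 1) * N j ^ n := by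
    intro j
    by_cases hj : j ∈ J
    · simp only [w, if_pos hj]
      exact sum_collisions B (h j hj)
    · simp only [w, if_neg hj]
      rw [sum_const, smul_eq_mul, mul_one, one_mul, card_univ, Fintype.card_fun,
        Fintype.card_fin, Fintype.card_fin]
  refine (prod_le_prod' fun j _ => h3 j).trans ?_
  rw [prod_mul_distrib, prod_ite_mem, univ_inter, prod_const, ← pow_mul]

end Pool.Agent.T6.Lead.Qr
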