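import Pool.Agent.T6.Lead.QrCount

set_option autoImplicit false

namespace Pool.Agent.T6.Lead.Qr

open Finset

/-- `D a j = 2 ^ 2 ^ (a + j)`. -/
def D (a j : ℕ) : ℕ := 2 ^ 2 ^ (a + j)

/-- Size of the level `j`. -/
def L (a t j : ℕ) : ℕ := 2 ^ (2 ^ (a + t) - 2 ^ (a + j))

lemma D_mul_L {a t j : ℕ} (h : j ≤ t) : D a j * L a t j = D a t := by
  unfold D L
  rw [← pow_add]
  congr 1
  have : 2 ^ (a + j) ≤ 2 ^ (a + t) := Nat.pow_le_pow_right (by norm_num) (by omega)
  omega

lemma L_pos (a t j : ℕ) : 0 < L a t j := by unfold L; positivity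

lemma D_pos (a j : ℕ) : 0 < D a j := by unfold D; positivity

lemma self_pow_le (s : ℕ) : s ^ s ≤ 3 ^ s * s.factorial := by
  have h1 := Real.pow_div_factorial_le_exp (s : ℝ) (Nat.cast_nonneg s) s
  have h2 : Real.exp (s : ℝ) ≤ 3 ^ s := by
    rw [← Real.exp_one_pow]
    exact pow_le_pow_left₀ (Real.exp_pos 1).le (by linarith [Real.exp_one_lt_d9]) s
  have h3 : ((s : ℝ) ^ s) ≤ 3 ^ s * (s.factorial : ℝ) := by
    have hf : (0 : ℝ) < (s.factorial : ℝ) := by exact_mod_cast s.factorial_pos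
    rw [div_le_iff₀ hf] at h1
    exact h1.trans (mul_le_mul_of_nonneg_right h2 hf.le)
  exact_mod_cast h3

lemma choose_bound {n s D' : ℕ} (hs : 1 ≤ s) (h : n ≤ s * D') : n.choose s ≤ (3 * D') ^ s := by
  have h1 : n.choose s * s ^ s ≤ (3 * D') ^ s * s ^ s := by
    calc n.choose s * s ^ s ≤ n.choose s * (3 ^ s * s.factorial) :=
          Nat.mul_le_mul_left _ (self_pow_le s)
      _ = 3 ^ s * n.descFactorial s := by
          rw [Nat.descFactorial_eq_factorial_mul_choose]; ring
      _ ≤ 3 ^ s * n ^ s := Nat.mul_le_mul_left _ (Nat.descFactorial_le_pow n s)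
      _ ≤ 3 ^ s * (s * D') ^ s := Nat.mul_le_mul_left _ (Nat.pow_le_pow_left h s)
      _ = (3 * D') ^ s * s ^ s := by rw [mul_pow, mul_pow]; ring
  exact Nat.le_of_mul_le_mul_right h1 (by positivity)

/-- Ratio of consecutive levels. -/
lemma L_ratio {a t j m : ℕ} (hm : m ≤ t) (hj : j < m) :
    L a t m * 2 ^ 2 ^ (a + m - 1) ≤ L a t j := by
  unfold L
  rw [← pow_add]
  refine Nat.pow_le_pow_right (by norm_num) ?_
  have h1 : 2 ^ (a + m) ≤ 2 ^ (a + t) := Nat.pow_le_pow_right (by norm_num) (by omega)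
  have h2 : 2 ^ (a + j) ≤ 2 ^ (a + m - 1) := Nat.pow_le_pow_right (by norm_num) (by omega)
  have h3 : 2 ^ (a + m) = 2 ^ (a + m - 1) + 2 ^ (a + m - 1) := by
    rw [← two_mul, ← pow_succ']; congr 1; omega
  omega

lemma numeric {a κ m : ℕ} (ha : 6 * κ + 5 ≤ 2 ^ a) (ha1 : 1 ≤ a) (hm : 1 ≤ m) :
    3 * D a (m + 1) * 2 ^ m * 2 ^ (m + 3) ≤ (2 ^ (2 ^ (a + m - 1) - κ)) ^ 6 := by
  have h3 : 2 ^ (a + m) = 2 * 2 ^ (a + m - 1) := by
    rw [← pow_succ']; congr 1; omega
  have h4 : 2 ^ (a + (m + 1)) = 4 * 2 ^ (a + m - 1) := by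
    have : a + (m + 1) = (a + m - 1) + 2 := by omega
    rw [this, pow_add]; ring
  have h5 : 2 ^ a + 2 * m ≤ 2 ^ (a + m) := by
    rw [pow_add]
    have h6 : m + 1 ≤ 2 ^ m := Nat.lt_two_pow_self
    have h7 : 2 ≤ 2 ^ a := by
      calc 2 = 2 ^ 1 := by norm_num
        _ ≤ 2 ^ a := Nat.pow_le_pow_right (by norm_num) ha1
    calc 2 ^ a + 2 * m ≤ 2 ^ a + 2 ^ a * m := Nat.add_le_add_left (Nat.mul_le_mul_right _ h7) _
      _ = 2 ^ a * (m + 1) := by ring
      _ ≤ 2 ^ a * 2 ^ m := Nat.mul_le_mul_left _ h6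
  have h8 : 2 * m + 5 + 6 * κ ≤ 2 * 2 ^ (a + m - 1) := by omega
  calc 3 * D a (m + 1) * 2 ^ m * 2 ^ (m + 3) ≤ 2 ^ 2 * D a (m + 1) * 2 ^ m * 2 ^ (m + 3) := by
        gcongr; norm_num
    _ = 2 ^ (2 + 4 * 2 ^ (a + m - 1) + m + (m + 3)) := by
        unfold D; rw [h4, ← pow_add, ← pow_add, ← pow_add]
    _ ≤ 2 ^ ((2 ^ (a + m - 1) - κ) * 6) := by
        refine Nat.pow_le_pow_right (by norm_num) ?_
        omega
    _ = (2 ^ (2 ^ (a + m - 1) - κ)) ^ 6 := by rw [← pow_mul]

/-- The levels `j < m`. -/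
def lower (t m : ℕ) : Finset (Fin t) := univ.filter fun j => (j : ℕ) < m

lemma card_lower_le (t m : ℕ) : (lower t m).card ≤ m := by
  unfold lower
  calc _ = ((univ.filter fun j : Fin t => (j : ℕ) < m).image (fun j : Fin t => (j : ℕ))).card := by
        rw [card_image_of_injective _ Fin.val_injective]
    _ ≤ (range m).card := by
        refine card_le_card ?_
        intro x hx
        simp only [mem_image, mem_filter, mem_univ, true_and] at hx
        obtain ⟨j, hj, rfl⟩ := hx
        simpa using hj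
    _ = m := card_range m

/-- Size condition on a set of size `s` relative to the level `m`. -/
def Cond (a t κ m s : ℕ) : Prop :=
  s ≤ 2 ^ κ * L a t m ∧ (m + 1 = t ∨ L a t (m + 1) ≤ s)

/-- The number of collisions of a set `B` in the levels `j < m`. -/
def coll {a t : ℕ} (f : (j : Fin t) → Fin (D a t) → Fin (L a t j)) (m : ℕ)
    (B : Finset (Fin (D a t))) : ℕ :=
  ∑ j ∈ lower t m, (B.card - (B.image (f j)).card)

lemma card_bad' {a t κ m : ℕ} (ha : 6 * κ + 5 ≤ 2 ^ a) (ha1 : 1 ≤ a) (hm : 1 ≤ m) (hmt : m < t)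
    {s : ℕ} (hs : 1 ≤ s) (hc : Cond a t κ m s) (B : Finset (Fin (D a t))) (hB : B.card = s) :
    (univ.filter fun f : (j : Fin t) → Fin (D a t) → Fin (L a t j) =>
      6 * s ≤ coll f m B).card * ((D a t).choose s * (2 ^ (m + 3)) ^ s)
      ≤ ∏ j : Fin t, L a t j ^ (D a t) := by
  classical
  set Q := 2 ^ (2 ^ (a + m - 1) - κ) with hQ
  have hκ : κ ≤ 2 ^ (a + m - 1) := by
    have h3 : 2 ^ (a + m) = 2 * 2 ^ (a + m - 1) := by
      rw [← pow_succ']; congr 1; omega
    have h4 : 2 ^ a ≤ 2 ^ (a + m) := Nat.pow_le_pow_right (by norm_num) (by omega)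
    omega
  have hQ1 : 1 ≤ Q := Nat.one_le_two_pow
  have hQN : ∀ j ∈ lower t m, B.card * Q ≤ L a t j := by
    intro j hj
    have hj' : (j : ℕ) < m := by simpa [lower] using hj
    rw [hB]
    calc s * Q ≤ 2 ^ κ * L a t m * Q := Nat.mul_le_mul_right _ hc.1
      _ = L a t m * (2 ^ κ * Q) := by ring
      _ = L a t m * 2 ^ 2 ^ (a + m - 1) := by
          rw [hQ, ← pow_add, Nat.add_sub_cancel' hκ]
      _ ≤ L a t j := L_ratio hmt.le hj'
  have h1 := card_bad (N := fun j : Fin t => L a t j) B (lower t m) hQ1 hQN (6 * s)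
  have hn : D a t ≤ s * D a (m + 1) := by
    rcases hc.2 with h | h
    · rw [h]; exact Nat.le_mul_of_pos_left _ hs
    · calc D a t = D a (m + 1) * L a t (m + 1) := (D_mul_L (by omega)).symm
        _ ≤ D a (m + 1) * s := Nat.mul_le_mul_left _ h
        _ = s * D a (m + 1) := mul_comm _ _
  have h2 : (D a t).choose s * (2 ^ (m + 3)) ^ s * 2 ^ (B.card * (lower t m).card) ≤ Q ^ (6 * s) := by
    calc (D a t).choose s * (2 ^ (m + 3)) ^ s * 2 ^ (B.card * (lower t m).card)
        ≤ (3 * D a (m + 1)) ^ s * (2 ^ (m + 3)) ^ s * 2 ^ (s * m) := by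
          rw [hB]
          refine Nat.mul_le_mul (Nat.mul_le_mul_right _ (choose_bound hs hn)) ?_
          exact Nat.pow_le_pow_right (by norm_num) (Nat.mul_le_mul_left _ (card_lower_le t m))
      _ = (3 * D a (m + 1) * 2 ^ m * 2 ^ (m + 3)) ^ s := by
          rw [mul_comm s m, pow_mul 2 m s, ← mul_pow, ← mul_pow]
          congr 1
          ring
      _ ≤ (Q ^ 6) ^ s := Nat.pow_le_pow_left (numeric ha ha1 hm) s
      _ = Q ^ (6 * s) := by rw [← pow_mul]
  have hQpos : 0 < 2 ^ (B.card * (lower t m).card) := by positivity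
  refine Nat.le_of_mul_le_mul_right (c := 2 ^ (B.card * (lower t m).card)) ?_ hQpos
  calc _ = (univ.filter fun f : (j : Fin t) → Fin (D a t) → Fin (L a t j) =>
        6 * s ≤ coll f m B).card * ((D a t).choose s * (2 ^ (m + 3)) ^ s *
          2 ^ (B.card * (lower t m).card)) := by ring
    _ ≤ (univ.filter fun f : (j : Fin t) → Fin (D a t) → Fin (L a t j) =>
        6 * s ≤ coll f m B).card * Q ^ (6 * s) := Nat.mul_le_mul_left _ h2
    _ ≤ 2 ^ (B.card * (lower t m).card) * ∏ j : Fin t, L a t j ^ (D a t) := h1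
    _ = _ := mul_comm _ _

/-- Existence of functions with few collisions at all scales. -/
theorem exists_good (a t κ : ℕ) (ha : 6 * κ + 5 ≤ 2 ^ a) (ha1 : 1 ≤ a) :
    ∃ f : (j : Fin t) → Fin (D a t) → Fin (L a t j), ∀ m < t, ∀ B : Finset (Fin (D a t)),
      B.Nonempty → Cond a t κ m B.card → coll f m B < 6 * B.card := by
  classical
  by_contra hcon
  push Not at hcon
  set Ω : ℕ := ∏ j : Fin t, L a t j ^ (D a t) with hΩ
  have hΩpos : 0 < Ω := Finset.prod_pos fun j _ => pow_pos (L_pos _ _ _) _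
  have hΩcard : (univ : Finset ((j : Fin t) → Fin (D a t) → Fin (L a t j))).card = Ω := by
    rw [card_univ, Fintype.card_pi]
    simp [hΩ]
  let bad : ℕ → Finset (Fin (D a t)) → Finset ((j : Fin t) → Fin (D a t) → Fin (L a t j)) :=
    fun m B => univ.filter fun f => 6 * B.card ≤ coll f m B
  let idx : ℕ → Finset (Finset (Fin (D a t))) := fun m =>
    univ.filter fun B => B.Nonempty ∧ Cond a t κ m B.card
  have hcov : (univ : Finset ((j : Fin t) → Fin (D a t) → Fin (L a t j))) ⊆
      (range t).biUnion fun m => (idx m).biUnion fun B => bad m B := by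
    intro f _
    obtain ⟨m, hm, B, hB, hc, hbad⟩ := hcon f
    simp only [mem_biUnion, mem_range]
    exact ⟨m, hm, B, by simp [idx, hB, hc], by simp [bad, hbad]⟩
  -- one level
  have hlevel : ∀ m < t, ((∑ B ∈ idx m, (bad m B).card : ℕ) : ℝ) ≤ (Ω : ℝ) * (1 / 4) * (1 / 2) ^ (m) := by
    intro m hm
    rcases Nat.eq_zero_or_pos m with rfl | hm1
    · have : ∀ B ∈ idx 0, (bad 0 B).card = 0 := by
        intro B hB
        have hne : B.Nonempty := by
          have := (mem_filter.mp hB).2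
          exact this.1
        rw [card_eq_zero, filter_eq_empty_iff]
        intro f _
        have h0 : coll f 0 B = 0 := by
          unfold coll lower
          simp
        rw [h0]
        have := hne.card_pos
        omega
      rw [sum_eq_zero this]
      simp
    · -- group by size
      have hterm : ∀ B ∈ idx m, ((bad m B).card : ℝ) ≤
          (Ω : ℝ) / ((D a t).choose B.card * (2 ^ (m + 3)) ^ B.card) := by
        intro B hB
        have hB2 := (mem_filter.mp hB).2
        have h := card_bad' ha ha1 hm1 hm hB2.1.card_pos hB2.2 B rfl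
        have hchoose : 0 < (D a t).choose B.card := by
          refine Nat.choose_pos ?_
          simpa using card_le_univ B
        rw [le_div_iff₀ (by positivity)]
        exact_mod_cast h
      have h1 : ((∑ B ∈ idx m, (bad m B).card : ℕ) : ℝ) ≤
          ∑ B ∈ idx m, (Ω : ℝ) / ((D a t).choose B.card * (2 ^ (m + 3)) ^ B.card) := by
        push_cast
        exact sum_le_sum hterm
      have h2 : ∑ B ∈ idx m, (Ω : ℝ) / ((D a t).choose B.card * (2 ^ (m + 3)) ^ B.card) ≤
          ∑ B ∈ (univ : Finset (Finset (Fin (D a t)))).filter (fun B => B.Nonempty),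
            (Ω : ℝ) / ((D a t).choose B.card * (2 ^ (m + 3)) ^ B.card) := by
        refine sum_le_sum_of_subset_of_nonneg ?_ ?_
        · intro B hB
          have hB2 := (mem_filter.mp hB).2
          simp [hB2.1]
        · intro B _ _
          positivity
      have h3 : ∑ B ∈ (univ : Finset (Finset (Fin (D a t)))).filter (fun B => B.Nonempty),
            (Ω : ℝ) / ((D a t).choose B.card * (2 ^ (m + 3)) ^ B.card) =
          ∑ s ∈ Icc 1 (D a t), ∑ B ∈ powersetCard s (univ : Finset (Fin (D a t))),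
            (Ω : ℝ) / ((D a t).choose s * (2 ^ (m + 3)) ^ s) := by
        rw [← sum_fiberwise_of_maps_to (s := (univ : Finset (Finset (Fin (D a t)))).filter
          (fun B => B.Nonempty)) (t := Icc 1 (D a t)) (g := fun B => B.card)]
        · refine sum_congr rfl fun s hs => ?_
          rw [mem_Icc] at hs
          refine sum_congr ?_ ?_
          · ext B
            simp only [mem_filter, mem_univ, true_and, mem_powersetCard, subset_univ]
            constructor
            · exact fun h => h.2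
            · intro h
              exact ⟨card_pos.mp (by omega), h⟩
          · intro B hB
            rw [(mem_powersetCard.mp hB).2]
        · intro B hB
          rw [mem_Icc]
          exact ⟨(mem_filter.mp hB).2.card_pos, by simpa using card_le_univ B⟩
      have h4 : ∀ s ∈ Icc 1 (D a t), ∑ B ∈ powersetCard s (univ : Finset (Fin (D a t))),
            (Ω : ℝ) / ((D a t).choose s * (2 ^ (m + 3)) ^ s) = (Ω : ℝ) * (1 / 2 ^ (m + 3)) ^ s := by
        intro s hs
        rw [mem_Icc] at hs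
        have hchoose : (0 : ℝ) < ((D a t).choose s : ℝ) := by
          exact_mod_cast Nat.choose_pos hs.2
        rw [sum_const, card_powersetCard, card_univ, Fintype.card_fin, nsmul_eq_mul]
        rw [one_div, inv_pow]
        field_simp
      have h5 : ∑ s ∈ Icc 1 (D a t), (Ω : ℝ) * (1 / 2 ^ (m + 3)) ^ s ≤
          (Ω : ℝ) * (2 * (1 / 2 ^ (m + 3))) := by
        rw [← mul_sum]
        refine mul_le_mul_of_nonneg_left ?_ (by positivity)
        set y : ℝ := 1 / 2 ^ (m + 3) with hy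
        have hy0 : 0 < y := by positivity
        have hy1 : y ≤ 1 / 2 := by
          rw [hy]
          refine one_div_le_one_div_of_le (by norm_num) ?_
          calc (2 : ℝ) = 2 ^ 1 := by norm_num
            _ ≤ 2 ^ (m + 3) := pow_le_pow_right₀ (by norm_num) (by omega)
        have hgeom : ∀ M : ℕ, ∑ s ∈ Icc 1 M, y ^ s ≤ 2 * y - 2 * y ^ (M + 1) := by
          intro M
          induction M with
          | zero => simp
          | succ M ih =>
            rw [sum_Icc_succ_top (by omega)]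
            have h7 : y ^ (M + 1) * y ≤ y ^ (M + 1) * (1 / 2) :=
              mul_le_mul_of_nonneg_left hy1 (by positivity)
            have h6 : y ^ (M + 1 + 1) = y ^ (M + 1) * y := pow_succ _ _
            linarith
        have := hgeom (D a t)
        have hpos : 0 ≤ y ^ (D a t + 1) := by positivity
        linarith
      calc ((∑ B ∈ idx m, (bad m B).card : ℕ) : ℝ) ≤ _ := h1
        _ ≤ _ := h2
        _ = _ := h3
        _ = ∑ s ∈ Icc 1 (D a t), (Ω : ℝ) * (1 / 2 ^ (m + 3)) ^ s := sum_congr rfl h4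
        _ ≤ (Ω : ℝ) * (2 * (1 / 2 ^ (m + 3))) := h5
        _ = (Ω : ℝ) * (1 / 4) * (1 / 2) ^ m := by
            rw [one_div_pow, pow_add]; ring
  have htotal : ((Ω : ℕ) : ℝ) ≤ ∑ m ∈ range t, (Ω : ℝ) * (1 / 4) * (1 / 2) ^ m := by
    have h1 : Ω ≤ ∑ m ∈ range t, ∑ B ∈ idx m, (bad m B).card := by
      rw [← hΩcard]
      refine (card_le_card hcov).trans (card_biUnion_le.trans ?_)
      exact sum_le_sum fun m _ => card_biUnion_le
    have h2 : ((Ω : ℕ) : ℝ) ≤ ∑ m ∈ range t, ((∑ B ∈ idx m, (bad m B).card : ℕ) : ℝ) := by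
      exact_mod_cast h1
    exact h2.trans (sum_le_sum fun m hm => hlevel m (mem_range.mp hm))
  rw [← mul_sum] at htotal
  have hgeo : ∑ m ∈ range t, (1 / 2 : ℝ) ^ m ≤ 2 := by
    rw [geom_sum_eq (by norm_num)]
    have : (0 : ℝ) < (1 / 2) ^ t := by positivity
    rw [div_le_iff_of_neg (by norm_num)]
    linarith
  have hΩR : (0 : ℝ) < (Ω : ℝ) := by exact_mod_cast hΩpos
  nlinarith [mul_le_mul_of_nonneg_left hgeo (by positivity : (0:ℝ) ≤ (Ω : ℝ) * (1 / 4))]

end Pool.Agent.T6.Lead.Qr
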